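import Mathlib
import Pool.Agent.W980.GT.Total

/-!
# Ideal parallel machines do not approximate the clique number within any admissible ratio

A randomised ideal parallel machine (priority CRCW PRAM with arbitrary states, words, instruction
set and memory, and with searches in lists of up to `K` cells as single steps) with `P` processors
gets a graph with `n` vertices (one input bit for each pair of vertices).

1. There is a constant `A` such that for `T ≥ 1`, `A ≤ r ≤ k` and `(T k) ^ (A T k / r) ≤ n` no such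
   machine with `P, K ≤ n ^ (r / A)` separates in `T` steps the graphs with a `k`-clique from the
   graphs whose cliques have at most `r` vertices, with success probability more than
   `1 / 2 + n ^ (- r / (A k))`.
2. Let `ρ` be an admissible ratio (`k / ρ(k)` is nondecreasing and unbounded). Let `f` be any
   function and `c(k) = o(k / ρ(k))`, for instance a constant. Then no such machine with
   `P, K ≤ f(k) n ^ c(k)` and running time `o(log n / log log n)` (for every fixed `k`) separates,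
   with error probability at most `1 / 3`, the graphs with a `k`-clique from the graphs in which
   every clique has fewer than `k / ρ(k)` vertices.
-/

set_option linter.unusedSectionVars false

namespace Pool.Agent.Results.MP_1fcf49_lc.ParallelMachines

open Finset DomAC0 Filter Topology Pool.Agent.H72.Clq Pool.Agent.W980.GC Pool.Agent.W980.GT
open Pool.Agent.W964.Pram hiding push push_sum push_total push_nonneg push_ne

open Classical in
theorem asym (ρ : ℕ → ℝ) (hρ1 : ∀ k, 1 ≤ ρ k) (hmono : Monotone fun k : ℕ => (k : ℝ) / ρ k)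
    (hunb : ∀ M : ℝ, ∃ k : ℕ, M ≤ (k : ℝ) / ρ k) (f c : ℕ → ℝ)
    (hc : Tendsto (fun k : ℕ => c k / ((k : ℝ) / ρ k)) atTop (𝓝 0))
    (T : ℕ → ℕ → ℕ) (hT1 : ∀ k n, 1 ≤ T k n)
    (hT : ∀ k, Tendsto (fun n : ℕ => (T k n : ℝ) * Real.log (Real.log n) / Real.log n)
      atTop (𝓝 0)) :
    ∀ᶠ k : ℕ in atTop, ∀ᶠ n : ℕ in atTop, ∀ P K : ℕ,
      (P : ℝ) ≤ f k * (n : ℝ) ^ c k → (K : ℝ) ≤ f k * (n : ℝ) ^ c k →
      ∀ R : RandMachine (Pairs n) P, R.Lists K → ∃ G : SimpleGraph (Fin n),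
        (¬ G.CliqueFree k ∧ R.success (T k n) (adjBits G) True < 2 / 3) ∨
        ((∀ S : Finset (Fin n), G.IsClique S → (#S : ℝ) < (k : ℝ) / ρ k) ∧
          R.success (T k n) (adjBits G) False < 2 / 3) := by
  obtain ⟨A, hA1, H⟩ := total_gap
  have hAR : (1 : ℝ) ≤ A := by exact_mod_cast hA1
  have hA0 : (0 : ℝ) < A := by linarith
  have htop : Tendsto (fun k : ℕ => (k : ℝ) / ρ k) atTop atTop :=
    tendsto_atTop_atTop_of_monotone hmono hunb
  have h1 : ∀ᶠ k : ℕ in atTop, c k / ((k : ℝ) / ρ k) < 1 / (4 * A) :=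
    hc.eventually_lt_const (by positivity)
  filter_upwards [h1, htop.eventually_ge_atTop ((A : ℝ) + 2)] with k hck hkA
  obtain ⟨y, hy⟩ : ∃ y : ℝ, y = (k : ℝ) / ρ k := ⟨_, rfl⟩
  rw [← hy] at hck hkA ⊢
  have hρ0 : 0 < ρ k := by linarith [hρ1 k]
  have hyk : y ≤ k := by
    rw [hy, div_le_iff₀ hρ0]
    have : (0 : ℝ) ≤ k := Nat.cast_nonneg _
    nlinarith [hρ1 k]
  have hy0 : 0 < y := by linarith
  obtain ⟨r, hr⟩ : ∃ r : ℕ, r = ⌈y⌉₊ - 1 := ⟨_, rfl⟩
  have hceil1 : 1 ≤ ⌈y⌉₊ := Nat.ceil_pos.2 hy0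
  have hrc : r + 1 = ⌈y⌉₊ := by omega
  have hry : (r : ℝ) < y := by
    have h2 : r < ⌈y⌉₊ := by omega
    exact Nat.lt_ceil.1 h2
  have hyr : y ≤ r + 1 := by
    have h2 : y ≤ ((⌈y⌉₊ : ℕ) : ℝ) := Nat.le_ceil _
    rw [← hrc] at h2
    push_cast at h2
    exact h2
  have hrA' : (A : ℝ) + 1 ≤ r := by linarith
  have hrA : A ≤ r := by
    have : (A : ℝ) ≤ r := by linarith
    exact_mod_cast this
  have hr1 : 1 ≤ r := hA1.trans hrA
  have hrR : (0 : ℝ) < r := by exact_mod_cast hr1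
  have hrk : r ≤ k := by
    have : (r : ℝ) ≤ k := by linarith
    exact_mod_cast this
  have hk1 : 1 ≤ k := hr1.trans hrk
  have hkR : (1 : ℝ) ≤ k := by exact_mod_cast hk1
  have hck' : c k ≤ r / (2 * A) := by
    have h2 : y ≤ 2 * r := by
      have : (1 : ℝ) ≤ r := by exact_mod_cast hr1
      linarith
    rw [div_lt_div_iff₀ hy0 (by positivity)] at hck
    rw [le_div_iff₀ (by positivity)]
    nlinarith
  have hpw : Tendsto (fun n : ℕ => (n : ℝ) ^ ((r : ℝ) / (2 * A))) atTop atTop :=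
    (tendsto_rpow_atTop (by positivity)).comp tendsto_natCast_atTop_atTop
  have hpw2 : Tendsto (fun n : ℕ => (n : ℝ) ^ ((r : ℝ) / (A * k))) atTop atTop :=
    (tendsto_rpow_atTop (by positivity)).comp tendsto_natCast_atTop_atTop
  have hAs : 1 ≤ A * k := Nat.mul_pos (by omega) (by omega)
  filter_upwards [ev_time (A * k) 1 hAs (T k) (hT k), hpw.eventually_ge_atTop (f k),
    hpw2.eventually_ge_atTop 8, eventually_ge_atTop 1] with n hn hf h8 hn1
  have hnR : (1 : ℝ) ≤ n := by exact_mod_cast hn1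
  have hn0 : (0 : ℝ) < n := by linarith
  have hTR : (1 : ℝ) ≤ T k n := by exact_mod_cast hT1 k n
  have hbd : f k * (n : ℝ) ^ c k ≤ (n : ℝ) ^ ((r : ℝ) / A) := by
    calc f k * (n : ℝ) ^ c k ≤ (n : ℝ) ^ ((r : ℝ) / (2 * A)) * (n : ℝ) ^ ((r : ℝ) / (2 * A)) :=
          mul_le_mul hf (Real.rpow_le_rpow_of_exponent_le hnR hck') (by positivity)
            (by positivity)
      _ = (n : ℝ) ^ ((r : ℝ) / A) := by
          rw [← Real.rpow_add hn0]
          congr 1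
          field_simp
          ring
  have hcond : ((T k n : ℝ) * k) ^ ((A : ℝ) * T k n * k / r) ≤ n := by
    have hb : (1 : ℝ) ≤ (T k n : ℝ) * k := by nlinarith
    have h2 : (((A * k * T k n * 1) ^ (A * k * T k n) : ℕ) : ℝ) ≤ n := by exact_mod_cast hn
    refine le_trans ?_ h2
    have h3 : ((T k n : ℝ) * k) ≤ ((A * k * T k n * 1 : ℕ) : ℝ) := by
      push_cast
      have : (0 : ℝ) ≤ (T k n : ℝ) * k := by linarith
      nlinarith
    have h4 : (A : ℝ) * T k n * k / r ≤ ((A * k * T k n : ℕ) : ℝ) := by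
      rw [div_le_iff₀ hrR]
      push_cast
      have h5 : (1 : ℝ) ≤ r := by exact_mod_cast hr1
      have h6 : (0 : ℝ) ≤ (A : ℝ) * T k n * k := by positivity
      nlinarith
    calc ((T k n : ℝ) * k) ^ ((A : ℝ) * T k n * k / r)
        ≤ ((T k n : ℝ) * k) ^ ((A * k * T k n : ℕ) : ℝ) :=
          Real.rpow_le_rpow_of_exponent_le hb h4
      _ = ((T k n : ℝ) * k) ^ (A * k * T k n) := Real.rpow_natCast _ _
      _ ≤ ((A * k * T k n * 1 : ℕ) : ℝ) ^ (A * k * T k n) :=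
          pow_le_pow_left₀ (by linarith) h3 _
      _ = _ := by push_cast; ring
  obtain ⟨ν₀, ν₁, _, _, _, _, h⟩ := H (T k n) r k n (hT1 k n) hrA hrk hcond
  intro P K hP hK R hR
  obtain ⟨G, hG⟩ := (h P K (hP.trans hbd) (hK.trans hbd)).2 R hR
  have h9 : (n : ℝ) ^ (-((r : ℝ) / (A * k))) ≤ 1 / 8 := by
    rw [Real.rpow_neg hn0.le, ← one_div]
    exact one_div_le_one_div_of_le (by norm_num) h8
  refine ⟨G, ?_⟩
  rcases hG with ⟨h2, h3⟩ | ⟨h2, h3⟩
  · exact Or.inl ⟨h2, by linarith⟩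
  · exact Or.inr ⟨fun S hS => lt_of_le_of_lt (h2 S hS) hry, by linarith⟩

open Classical in
theorem result :
    (∃ A : ℕ, 1 ≤ A ∧ ∀ T r k n : ℕ, 1 ≤ T → A ≤ r → r ≤ k →
      ((T : ℝ) * k) ^ ((A : ℝ) * T * k / r) ≤ n →
      ∀ P K : ℕ, (P : ℝ) ≤ (n : ℝ) ^ ((r : ℝ) / A) → (K : ℝ) ≤ (n : ℝ) ^ ((r : ℝ) / A) →
        ∀ R : RandMachine (Pairs n) P, R.Lists K → ∃ G : SimpleGraph (Fin n),
          (¬ G.CliqueFree k ∧
            R.success T (adjBits G) True ≤ 1 / 2 + (n : ℝ) ^ (-((r : ℝ) / (A * k)))) ∨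
          ((∀ S : Finset (Fin n), G.IsClique S → #S ≤ r) ∧
            R.success T (adjBits G) False ≤ 1 / 2 + (n : ℝ) ^ (-((r : ℝ) / (A * k))))) ∧
    (∀ ρ : ℕ → ℝ, (∀ k, 1 ≤ ρ k) → Monotone (fun k : ℕ => (k : ℝ) / ρ k) →
      (∀ M : ℝ, ∃ k : ℕ, M ≤ (k : ℝ) / ρ k) →
      ∀ f c : ℕ → ℝ, Tendsto (fun k : ℕ => c k / ((k : ℝ) / ρ k)) atTop (𝓝 0) →
      ∀ T : ℕ → ℕ → ℕ, (∀ k n, 1 ≤ T k n) →
      (∀ k, Tendsto (fun n : ℕ => (T k n : ℝ) * Real.log (Real.log n) / Real.log n)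
        atTop (𝓝 0)) →
      ∀ᶠ k : ℕ in atTop, ∀ᶠ n : ℕ in atTop, ∀ P K : ℕ,
        (P : ℝ) ≤ f k * (n : ℝ) ^ c k → (K : ℝ) ≤ f k * (n : ℝ) ^ c k →
        ∀ R : RandMachine (Pairs n) P, R.Lists K → ∃ G : SimpleGraph (Fin n),
          (¬ G.CliqueFree k ∧ R.success (T k n) (adjBits G) True < 2 / 3) ∨
          ((∀ S : Finset (Fin n), G.IsClique S → (#S : ℝ) < (k : ℝ) / ρ k) ∧
            R.success (T k n) (adjBits G) False < 2 / 3)) := by
  refine ⟨?_, fun ρ h1 h2 h3 f c hc T hT1 hT => asym ρ h1 h2 h3 f c hc T hT1 hT⟩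
  obtain ⟨A, hA, H⟩ := total_gap
  refine ⟨A, hA, fun T r k n hT hr hrk hn P K hP hK R hR => ?_⟩
  obtain ⟨ν₀, ν₁, _, _, _, _, h⟩ := H T r k n hT hr hrk hn
  obtain ⟨G, hG⟩ := (h P K hP hK).2 R hR
  refine ⟨G, ?_⟩
  rcases hG with h2 | ⟨h2, h3⟩
  · exact Or.inl h2
  · exact Or.inr ⟨fun S hS => by exact_mod_cast h2 S hS, h3⟩

end Pool.Agent.Results.MP_1fcf49_lc.ParallelMachines
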